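import Pool.Agent.V11325.GB.Select
import Pool.Agent.V11325.GB.Shrink
import Pool.Agent.V11325.GB.Dual

/-!
# MP_aa6dd4_lc, Q2: support-constrained Gabidulin codes exist for every `m ≥ n`

Proof.  Write `r = n - k` and let `T i` be the complement of `Z i`; (∗) says
`|⋃_Ω T i| ≥ |Ω| + r`.  The sets can be shrunk to `|T i| = r + 1` (file `Shrink`).  We look for the
code as the set `D_h` of words orthogonal to the Moore rows `(h_j^{q^s})_j`, `s < r`.  A theorem on
generic `h` (file `Generic`, induction, with one coordinate sent to infinity) shows that words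
`c_i ∈ D_h` supported on `T i` are linearly independent; the relevant minor has degree at most
`k q^{r-1}` in every variable (file `Minor`), so that it does not vanish at some `h` with linearly
independent entries as soon as `q^m > q^{n-1} + k q^{r-1}`, which holds for every `m ≥ n`
(file `Select`).  Finally `D_h` is a Gabidulin code (file `Dual`).
-/

namespace Pool.Agent.Results.MP_aa6dd4_lc.GabidulinAllM

open Finset V11325.GB

/-- The `k`-dimensional Gabidulin code of `g = (g_1, …, g_n)`: all words `(f(g_1), …, f(g_n))` with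
`f = ∑_{t < k} f_t x^{q^t}`. -/
def gabidulin {F : Type*} [Field F] (q k : ℕ) {n : ℕ} (g : Fin n → F) : Set (Fin n → F) :=
  {w | ∃ f : Fin k → F, ∀ j, w j = ∑ t : Fin k, f t * g j ^ q ^ (t : ℕ)}

/-- `G` is a generator matrix of the code `C`: its rows are a basis of `C`. -/
def IsGeneratorMatrix {F : Type*} [Field F] {n k : ℕ} (G : Matrix (Fin k) (Fin n) F)
    (C : Set (Fin n → F)) : Prop :=
  LinearIndependent F (fun i : Fin k => G i) ∧
    (Submodule.span F (Set.range fun i : Fin k => G i) : Set (Fin n → F)) = C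

/-- **Q2 holds**: let `1 ≤ k ≤ n` and let `Z_1, …, Z_k ⊆ {1, …, n}` satisfy
`|⋂_{i ∈ Ω} Z_i| + |Ω| ≤ k` for every nonempty `Ω`.  Then for every finite field `Fq` with `q`
elements and every extension `F` of `Fq` of degree `m ≥ n` there are `g_1, …, g_n ∈ F`, linearly
independent over `Fq`, whose Gabidulin code has a generator matrix `G` with `G i j = 0` for all
`j ∈ Z_i`. -/
theorem result (n k : ℕ) (hk : 1 ≤ k) (hkn : k ≤ n) (Z : Fin k → Finset (Fin n))
    (hZ : ∀ Ω : Finset (Fin k), Ω.Nonempty →
      (Finset.univ.filter (fun j : Fin n => ∀ i ∈ Ω, j ∈ Z i)).card + Ω.card ≤ k)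
    (q m : ℕ) (hmn : n ≤ m)
    (Fq F : Type*) [Field Fq] [Field F] [Algebra Fq F]
    (hq : IsPrimePow q) (hcard : Nat.card Fq = q) (hm : Module.finrank Fq F = m) :
    ∃ g : Fin n → F, LinearIndependent Fq g ∧
      ∃ G : Matrix (Fin k) (Fin n) F, IsGeneratorMatrix G (gabidulin q k g) ∧
        ∀ i : Fin k, ∀ j ∈ Z i, G i j = 0 := by
  classical
  have hFqfin : Finite Fq := Nat.finite_of_card_ne_zero (by rw [hcard]; exact hq.pos.ne')
  haveI : Fintype Fq := Fintype.ofFinite Fq
  have hcard' : Fintype.card Fq = q := by rw [← hcard, Nat.card_eq_fintype_card]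
  have hfd : Module.Finite Fq F := Module.finite_of_finrank_pos (by rw [hm]; omega)
  haveI hFfin : Finite F := Module.finite_of_finite Fq
  haveI : Fintype F := Fintype.ofFinite F
  have hq1 : 1 < q := hq.one_lt
  have hcardF : Fintype.card F = q ^ m := by
    rw [← hm, ← hcard', ← Module.card_eq_pow_finrank]
  set r := n - k with hr
  -- Hall type condition
  have hHall : Hall r (fun i => (Z i)ᶜ) := by
    intro Ω hΩ
    have h1 := hZ Ω hΩ
    have h2 : Ω.biUnion (fun i => (Z i)ᶜ)
        = (Finset.univ.filter (fun j : Fin n => ∀ i ∈ Ω, j ∈ Z i))ᶜ := by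
      ext x
      simp
    rw [h2, Finset.card_compl, Fintype.card_fin]
    omega
  obtain ⟨T, hTsub, hTcard, hTHall⟩ := shrink r _ (fun i => (Z i)ᶜ) le_rfl hHall
  have hpos : Pos univ T (fun _ => r) := by
    intro i _
    rw [hTcard i]
    exact Nat.lt_succ_self r
  have hstar : Star univ T (fun _ => r) := by
    intro Ω _ hne
    obtain ⟨i0, hi0⟩ := id hne
    refine ⟨i0, hi0, ?_⟩
    have h1 := hTHall Ω hne
    simp only [hTcard, Finset.sum_const, smul_eq_mul]
    rw [Nat.mul_add]
    omega
  have hsize : ∀ j < n, Fintype.card Fq ^ j + k * degE (Fintype.card Fq) r < Fintype.card F := by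
    intro j hj
    rw [hcard', hcardF]
    have h1 : q ^ j ≤ q ^ (n - 1) := Nat.pow_le_pow_right (by omega) (by omega)
    have h2 : q ^ n ≤ q ^ m := Nat.pow_le_pow_right (by omega) hmn
    have h3 : q ^ n = q ^ (n - 1) * q := by
      rw [← pow_succ]; congr 1; omega
    have h4 : q ^ (n - 1) * 2 ≤ q ^ (n - 1) * q := Nat.mul_le_mul_left _ hq1
    have h5 : 0 < q ^ (n - 1) := Nat.pow_pos (by omega)
    have h6 : k * degE q r < q ^ (n - 1) := by
      rw [degE]
      by_cases hr0 : r = 0
      · rw [if_pos hr0, mul_zero]; exact h5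
      · rw [if_neg hr0]
        have h7 : k < q ^ k := Nat.lt_pow_self hq1
        have h8 : 0 < q ^ (r - 1) := Nat.pow_pos (by omega)
        calc k * q ^ (r - 1) < q ^ k * q ^ (r - 1) := Nat.mul_lt_mul_of_pos_right h7 h8
          _ = q ^ (n - 1) := by rw [← pow_add]; congr 1; omega
    omega
  obtain ⟨h, hli, hind⟩ := exists_good (Fq := Fq) n k r T hpos hstar hsize
  have hwords := fun i : Fin k => exists_word (Fintype.card Fq) (T i) h r
    (by rw [hTcard i]; omega)
  choose w hw0 hwsupp hweq using hwords
  have hwmem : ∀ i, w i ∈ dualS F (Fintype.card Fq) (n - k) h := by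
    intro i s hs
    rw [← hweq i s hs]
    symm
    apply Finset.sum_subset (Finset.subset_univ _)
    intro x _ hx
    rw [hwsupp i x hx, zero_mul]
  have hwli : LinearIndependent F w := by
    rw [Fintype.linearIndependent_iff]
    intro a ha i
    have hrel : Rel (Fintype.card Fq) h univ T (fun _ => r) (fun i l => a i * w i l) := by
      refine ⟨?_, ?_, ?_⟩
      · intro i _ l hl
        simp only [hwsupp i l hl, mul_zero]
      · intro i _ s hs
        simp only [mul_assoc]
        rw [← Finset.mul_sum, hweq i s hs, mul_zero]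
      · intro l
        have := congrFun ha l
        simpa using this
    have h1 := hind _ hrel i (Finset.mem_univ i)
    by_contra hai
    apply hw0 i
    funext l
    exact (mul_eq_zero.mp (h1 l)).resolve_left hai
  obtain ⟨g, hgli, hgspan⟩ := exists_gab hk hkn h hli
  refine ⟨g, hgli, Matrix.of w, ⟨hwli, ?_⟩, ?_⟩
  · have h1 : Submodule.span F (Set.range fun i : Fin k => (Matrix.of w) i)
        = dualS F (Fintype.card Fq) (n - k) h := span_eq_dualS hkn h hli w hwli hwmem
    rw [h1, ← hgspan]
    ext v
    rw [SetLike.mem_coe, Submodule.mem_span_range_iff_exists_fun, gabidulin, Set.mem_setOf_eq,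
      hcard']
    constructor
    · rintro ⟨c, hc⟩
      refine ⟨c, fun j => ?_⟩
      rw [← hc]
      simp
    · rintro ⟨c, hc⟩
      refine ⟨c, ?_⟩
      funext j
      rw [hc j]
      simp
  · intro i j hj
    apply hwsupp i j
    intro hjT
    have := hTsub i hjT
    exact (Finset.mem_compl.mp this) hj

end Pool.Agent.Results.MP_aa6dd4_lc.GabidulinAllM
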